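import Pool.Agent.Lib.MP_aad418_lc.Cnt
import Pool.Agent.Lib.MP_aad418_lc.Join
import Pool.Agent.Lib.MP_aad418_lc.FV

/-! Which sets of cardinalities are definable in the lattice of effectively closed sets. -/

namespace Pool.Agent.Results.MP_aad418_lc.CardinalitySets

open FirstOrder Pool.Agent.Lib.MP_aad418_lc

theorem result (n : ℕ) (S : Set ℕ) :
    (∃ φ : Language.order.Formula (Fin 1), ∀ P : EPi,
      @Language.Formula.Realize _ EPi (Language.orderStructure EPi) _ φ ![P] ↔
        ∃ k ∈ S, (derivedSet^[n] P.1).encard = (k : ℕ)) ↔ S.Finite ∨ Sᶜ.Finite := by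
  refine ⟨fun ⟨φ, h⟩ => ?_, df_card n S⟩
  obtain ⟨W, hW⟩ := exists_one n
  obtain ⟨N, hN⟩ := fv φ W
  have k1 : ∀ k, @Language.Formula.Realize _ (Fin (k + 1) → EPi) (Language.orderStructure _) _ φ
      ![fun _ => W] ↔ k + 1 ∈ S := fun k => by
    obtain ⟨e, he⟩ := pow_iso k
    let := Language.orderStructure EPi
    let := Language.orderStructure (Fin (k + 1) → EPi)
    have : Language.order.OrderedStructure EPi := ⟨fun _ => Iff.rfl⟩
    have : Language.order.OrderedStructure (Fin (k + 1) → EPi) := ⟨fun _ => Iff.rfl⟩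
    rw [← Language.StrongHomClass.realize_formula e φ,
      show (e ∘ ![fun _ => W]) = ![e fun _ => W] from funext fun i => by
        rw [Subsingleton.elim i 0]; rfl, h]
    change (∃ j ∈ S, (D n _).encard = _) ↔ _
    simp only [he, hW, mul_one, Nat.cast_inj, exists_eq_right']
  have k2 : ∀ k, N < k → (k ∈ S ↔ N + 1 ∈ S) := fun k hk => by
    obtain ⟨j, rfl⟩ := Nat.exists_eq_succ_of_ne_zero (Nat.ne_zero_of_lt hk)
    rw [← k1, ← k1]
    exact hN _ _ hk.le N.le_succ
  by_cases h0 : N + 1 ∈ S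
  · exact .inr ((Set.finite_le_nat N).subset fun k hk => le_of_not_gt fun e => hk ((k2 k e).2 h0))
  · exact .inl ((Set.finite_le_nat N).subset fun k hk => le_of_not_gt fun e => h0 ((k2 k e).1 hk))

end Pool.Agent.Results.MP_aad418_lc.CardinalitySets
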