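import Pool.Agent.Lib.MP_aad418_lc.FJc

/-! Having finitely many subclasses modulo a definable ideal is a definable property. -/

namespace Pool.Agent.Results.MP_aad418_lc.FiniteQuotient

open Pool.Agent.Lib.MP_6cbb02_lc Pool.Agent.Lib.MP_aad418_lc

theorem result (J : Set EPi) (hd : IsDefinable J)
    (hun : ∀ P ∈ J, ∀ Q ∈ J, ∀ R : EPi, R.1 ⊆ P.1 ∪ Q.1 → R ∈ J) :
    IsDefinable {P : EPi | ∃ S : Set EPi, S.Finite ∧
      ∀ Q : EPi, Q.1 ⊆ P.1 → ∃ R ∈ S, ∃ F ∈ J, Q.1 ∪ F.1 = R.1 ∪ F.1} :=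
  FQ.quot_definable hd hun

/-- The zero ideal: a class has finitely many subclasses iff it is finite. -/
theorem zero_case : IsDefinable {P : EPi | P.1.Finite} := by
  rw [FQ.fin_eq]
  exact result _ FQ.emp_definable FQ.idl_emp.un

/-- The ideal of finite classes: finitely many subclasses modulo finite differences. -/
theorem finite_case : IsDefinable {P : EPi | ∃ S : Set EPi, S.Finite ∧
    ∀ Q : EPi, Q.1 ⊆ P.1 → ∃ R ∈ S, (symmDiff Q.1 R.1).Finite} := by
  simp only [FQ.symmDiff_iff]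
  exact result _ FQ.fin_definable FQ.idl_fin.un

/-- Every level of the tower that starts from the finite classes. -/
theorem tower (T : ℕ → Set EPi) (h0 : T 0 = {P | P.1.Finite})
    (hs : ∀ n, T (n + 1) = {P : EPi | ∃ S : Set EPi, S.Finite ∧
      ∀ Q : EPi, Q.1 ⊆ P.1 → ∃ R ∈ S, ∃ F ∈ T n, Q.1 ∪ F.1 = R.1 ∪ F.1}) (n : ℕ) :
    IsDefinable (T n) := by
  have h : FQ.Idl (T n) ∧ IsDefinable (T n) := by
    induction n with
    | zero => exact h0 ▸ ⟨FQ.idl_fin, FQ.fin_definable⟩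
    | succ n ih =>
      rw [hs]
      exact ⟨FQ.fj_eq ih.1 ▸ ih.1.next, result _ ih.2 ih.1.un⟩
  exact h.2

end Pool.Agent.Results.MP_aad418_lc.FiniteQuotient
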