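import Pool.Agent.Lib.MP_aad418_lc.FMe

/-! The quantifier saying that there are finitely many classes with a definable property can be
eliminated. -/

namespace Pool.Agent.Results.MP_aad418_lc.FinitelyMany

open FirstOrder Pool.Agent.Lib.MP_6cbb02_lc Pool.Agent.Lib.MP_aad418_lc

theorem result (n : ℕ) (φ : Language.order.Formula (Option (Fin n))) :
    letI := Language.orderStructure EPi
    ∃ ψ : Language.order.Formula (Fin n), ∀ v : Fin n → EPi, ψ.Realize v ↔
      {Q : EPi | φ.Realize fun o => o.elim Q v}.Finite :=
  FM.formula_all φ

end Pool.Agent.Results.MP_aad418_lc.FinitelyMany
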