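import Pool.Agent.Lib.MP_aad418_lc.Q.Low
import Pool.Agent.Lib.MP_aad418_lc.Q.Up

/-! Two quantifier blocks do not separate the finite classes from the minimal ones. -/

namespace Pool.Agent.Results.MP_aad418_lc.ThreeBlocks

open Pool.Agent.Lib.MP_aad418_lc

theorem result (R : EPi → Prop) (hR : BC EA R) :
    ∃ F M : EPi, F.1.Finite ∧ Minimal M ∧ (R F ↔ R M) :=
  low_main hR

/-! The statements below are not the hand-in; they show that three blocks are enough. -/

/-- Finiteness is defined by a formula with three quantifier blocks. -/
theorem finite_three : AEA fun P => P.1.Finite := up_main

/-- Minimality is defined by a Boolean combination of formulas with three quantifier blocks. -/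
theorem minimal_three : BC AEA Minimal := up_min

end Pool.Agent.Results.MP_aad418_lc.ThreeBlocks
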